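import Pool.Agent.U916.DF.Dih

set_option autoImplicit false

/-!
# Malle's conjecture for the dihedral groups `D_p`: upper bounds

Let `p` be an odd prime and `N(X)` the number of the subfields `L` of `ℚ̄` of degree `p` with `|disc L| ≤ X`
for which the Galois group of the normal closure is the dihedral group `D_p` of order `2 p`. The weak form of
Malle's conjecture predicts the exponent `2 / (p - 1)`. Class field theory and the trivial bound for the
`p`-torsion of the class groups of quadratic fields give `3 / (p - 1) + ε` (Klüners); the best exponent in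
print is `(3 - 3 / (p + 1)) / (p - 1) + ε` or nearby (averages of the `p`-torsion; Heath-Brown and Pierce,
Frei and Widmer). Here: for all primes `p ≥ 101` the saving `3 / (p + 1)` is replaced by
`3 / (4 p ^ (2 / 3))`, and the same for the normal closures, of degree `2 p`.

The known facts which are used are in `ClassFieldFacts`.
-/

namespace Pool.Agent.Results.MP_af4c59_nt.DihedralSaving

open Pool.Agent.U916.DF

/-- Let `p` be an odd prime for which the facts `ClassFieldFacts` hold.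

(1) Let `2 ≤ k ≤ p`, `s = min (k² / (4 p²), (1 - k² / (4 p²)) / (2 k))` and `ε > 0`. For all `X ≥ 1` the number
of the fields `L` of degree `p` with group `D_p` and `|disc L| ≤ X` is at most
`C X ^ ((3 - 2 s + ε) / (p - 1))`, and the number of their normal closures `M` with `|disc M| ≤ X` is at most
`C X ^ ((3 / 2 - s + ε) / p)`.

(2) If `p ≥ 101`, then these numbers are at most `C X ^ ((3 - 3 / (4 p ^ (2 / 3))) / (p - 1))` and
`C X ^ ((3 / 2 - 3 / (8 p ^ (2 / 3))) / p)`. -/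
theorem result (p : ℕ) (hp : p.Prime) (hp3 : 3 ≤ p) (A : ℕ) (h : ClassFieldFacts p A) :
    (∀ k : ℕ, 2 ≤ k → k ≤ p → ∀ ε : ℝ, 0 < ε → ∃ C : ℝ, 0 < C ∧ ∀ X : ℝ, 1 ≤ X →
      ((DFields p X).Finite ∧ ((DFields p X).ncard : ℝ) ≤
        C * X ^ ((3 - 2 * min ((k : ℝ) ^ 2 / (4 * (p : ℝ) ^ 2))
          ((1 - (k : ℝ) ^ 2 / (4 * (p : ℝ) ^ 2)) / (2 * (k : ℝ))) + ε) / ((p : ℝ) - 1))) ∧
      ((DClosures p X).Finite ∧ ((DClosures p X).ncard : ℝ) ≤
        C * X ^ ((3 / 2 - min ((k : ℝ) ^ 2 / (4 * (p : ℝ) ^ 2))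
          ((1 - (k : ℝ) ^ 2 / (4 * (p : ℝ) ^ 2)) / (2 * (k : ℝ))) + ε) / (p : ℝ)))) ∧
    (101 ≤ p → ∃ C : ℝ, 0 < C ∧ ∀ X : ℝ, 1 ≤ X →
      ((DFields p X).Finite ∧ ((DFields p X).ncard : ℝ) ≤
        C * X ^ ((3 - 3 / (4 * (p : ℝ) ^ ((2 : ℝ) / 3))) / ((p : ℝ) - 1))) ∧
      ((DClosures p X).Finite ∧ ((DClosures p X).ncard : ℝ) ≤
        C * X ^ ((3 / 2 - 3 / (8 * (p : ℝ) ^ ((2 : ℝ) / 3))) / (p : ℝ)))) := by
  have hodd : Odd p := hp.odd_of_ne_two (by omega)
  have hpR : (3 : ℝ) ≤ p := by exact_mod_cast hp3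
  have hp1 : (0 : ℝ) < (p : ℝ) - 1 := by linarith
  constructor
  · intro k hk hkp ε hε
    obtain ⟨s, hs⟩ : ∃ s, s = min ((k : ℝ) ^ 2 / (4 * (p : ℝ) ^ 2))
          ((1 - (k : ℝ) ^ 2 / (4 * (p : ℝ) ^ 2)) / (2 * (k : ℝ))) := ⟨_, rfl⟩
    rw [← hs]
    have hkR : (2 : ℝ) ≤ k := by exact_mod_cast hk
    have hs4 : s ≤ 1 / 4 := by
      rw [hs]
      refine (min_le_right _ _).trans ?_
      rw [div_le_iff₀ (by positivity)]
      have : 0 ≤ (k : ℝ) ^ 2 / (4 * (p : ℝ) ^ 2) := by positivity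
      nlinarith
    obtain ⟨C0, hC0, hfull⟩ := Pool.Agent.U916.GT.full p k 1 le_rfl (by omega) hkp (by omega) (ε / 2)
      (by positivity)
    obtain ⟨C, hC, hmain⟩ := upper p A hp3 hodd h (3 / 2 - s + ε / 2) C0 (by linarith) hC0 (by
      intro X hX S K _ _ hS
      refine (hfull X hX S K hS).trans (le_of_eq ?_)
      congr 2
      rw [hs]
      push_cast
      rw [one_mul]
      ring)
    refine ⟨C, hC, fun X hX => ?_⟩
    obtain ⟨⟨f1, b1⟩, f2, b2⟩ := hmain X hX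
    refine ⟨⟨f1, b1.trans (le_of_eq ?_)⟩, f2, b2.trans ?_⟩
    · congr 2
      ring
    · refine mul_le_mul_of_nonneg_left (Real.rpow_le_rpow_of_exponent_le hX ?_) hC.le
      exact div_le_div_of_nonneg_right (by linarith) (by positivity)
  · intro h101
    have hp100 : (100 : ℝ) ≤ p := by exact_mod_cast (by omega : 100 ≤ p)
    obtain ⟨C0, hC0, hmean⟩ := Pool.Agent.U916.GT.mean p (by omega)
    have h23 : (1 : ℝ) ≤ (p : ℝ) ^ ((2 : ℝ) / 3) := Real.one_le_rpow (by linarith) (by norm_num)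
    have hsm : 3 / (8 * (p : ℝ) ^ ((2 : ℝ) / 3)) ≤ 3 / 8 := by
      rw [div_le_div_iff₀ (by positivity) (by norm_num)]
      linarith
    obtain ⟨C, hC, hmain⟩ := upper p A hp3 hodd h (3 / 2 - 3 / (8 * (p : ℝ) ^ ((2 : ℝ) / 3))) C0
      (by linarith) hC0 (by
      intro X hX S K _ _ hS
      refine le_trans (le_of_eq ?_) (hmean X hX S K hS)
      exact Finset.sum_congr rfl fun D _ => pow_one _)
    refine ⟨C, hC, fun X hX => ?_⟩
    obtain ⟨⟨f1, b1⟩, f2, b2⟩ := hmain X hX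
    refine ⟨⟨f1, b1.trans (le_of_eq ?_)⟩, f2, b2⟩
    congr 3
    ring

end Pool.Agent.Results.MP_af4c59_nt.DihedralSaving
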