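import Mathlib
import Pool.Agent.U737.MN.Done
import Pool.Agent.U737.MN.Ind

/-!
# The weak form of Malle's conjecture, and the asymptotic formula, for the wreath products `C₂ ≀ H`, `H` in
an arbitrary action of large degree

`H` is a finite group acting transitively and faithfully on a finite set `P`, and `C₂ ≀ H` acts on
`P × {0, 1}`. Let `q` be the index of a core-free subgroup `U` of `H` (the degree of any faithful transitive
action). If `|P| ≥ 8 log₂ |H| q (q + 1)`, or if `|P| ≥ 8 q (q + 1)` and `U` contains the stabilizer of a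
point of `P`, then Malle's conjecture holds for `C₂ ≀ H` over all number fields over which `H` is a
Galois group.

For the symmetric groups `H = S_m` and the groups `H = A ≀ S_m` (`A` any finite group, `m` large) nothing
is assumed, and the conjecture holds over all number fields. For instance `H = S_m` may act on the ordered
`k`-tuples of distinct elements of `{1, ..., m}`, for all `m ≥ 12`, `3 ≤ k ≤ m`, or on the `k`-subsets of
`{1, ..., m}`, for all `m ≥ 128`, `5 ≤ k ≤ m - 5`.

The proof. The `C₂ ≀ H`-extensions of `K` are the quadratic extensions `L = M(√α)` of the extensions `M` of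
`K` with group `H` acting on `P` for which the conjugates of `α` are independent modulo squares; for fixed
`M` these are almost all (sieve at the totally split primes). There are few fields `M`: the root
discriminant of the normal closure is at most the product of those of the conjugates of `M` at a base of the
action, which has at most `log₂ |H|` points, and at least that of the field fixed by `U`, of degree `q`.

Project MN: helper737 with parts by helpers 55, 178, 261, 358, 404, 608, 630, 810, 875, 891, 894, 980. The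
regular action `P = H` and the count of quadratic extensions are in the library (`Pool.Agent.TH444.ML`).
-/

set_option autoImplicit false

open Filter

namespace Pool.Agent.Results.MP_af4c59_nt.LargeActions

/-- `G ≤ S_d` is, up to a bijection `f` of `{1, ..., d}` with `P × {0, 1}`, the wreath product
`C₂ ≀ H`: it consists of all permutations `π` for which there is `h ∈ H` such that `π` maps the block
`{x} × {0, 1}` to the block `{h x} × {0, 1}`, for all `x ∈ P`. -/
def IsC2Wreath (H P : Type) [Group H] [MulAction H P] {d : ℕ} (G : Subgroup (Equiv.Perm (Fin d))) :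
    Prop :=
  ∃ f : Fin d ≃ P × Bool, ∀ π : Equiv.Perm (Fin d), π ∈ G ↔ ∃ h : H, ∀ i, (f (π i)).1 = h • (f i).1

/-- The index of a permutation: `d` minus the number of its cycles, fixed points included. -/
def ind {d : ℕ} (g : Equiv.Perm (Fin d)) : ℕ := g.cycleType.sum - Multiset.card g.cycleType

/-- `a(G) = 1 / min ind(g)`, the minimum over the `g ≠ 1` in `G`. -/
noncomputable def a {d : ℕ} (G : Subgroup (Equiv.Perm (Fin d))) : ℝ :=
  1 / (sInf {j : ℕ | ∃ g ∈ G, g ≠ 1 ∧ j = ind g} : ℕ)

/-- `N_{d,K}(X; G)`: the number of fields `L` between `K` and its algebraic closure, of degree `d`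
over `K`, whose Galois group, acting on the embeddings, is `G` (up to numbering), and whose relative
discriminant has norm at most `X` (that is, `|d_L| ≤ X |d_K| ^ d`). -/
noncomputable def N (K : Type) [Field K] [NumberField K] (d : ℕ)
    (G : Subgroup (Equiv.Perm (Fin d))) (X : ℝ) : ℕ :=
  Set.ncard {L : IntermediateField K (AlgebraicClosure K) |
    Module.finrank K L = d ∧
    (∃ e : (L →ₐ[K] AlgebraicClosure K) ≃ Fin d, ∀ π : Equiv.Perm (Fin d),
      π ∈ G ↔ ∃ σ : AlgebraicClosure K ≃ₐ[K] AlgebraicClosure K,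
        ∀ φ : L →ₐ[K] AlgebraicClosure K, e (σ.toAlgHom.comp φ) = π (e φ)) ∧
    ∃ h : NumberField L,
      ((|@NumberField.discr L _ h| : ℤ) : ℝ) ≤ X * ((|NumberField.discr K| : ℤ) : ℝ) ^ d}

/-- Malle's conjecture for `(K, G)`: the asymptotic formula `N_{d,K}(X; G) ~ c X ^ a(G)` (so
`b(K, G) = 1`), and the inequalities of the weak form. -/
def Malle (K : Type) [Field K] [NumberField K] (d : ℕ) (G : Subgroup (Equiv.Perm (Fin d))) :
    Prop :=
  (∃ c : ℝ, 0 < c ∧ Tendsto (fun X : ℝ => (N K d G X : ℝ) / X ^ a G) atTop (nhds c)) ∧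
  (∃ c₁ : ℝ, 0 < c₁ ∧ ∃ X₀ : ℝ, ∀ X : ℝ, X₀ ≤ X → c₁ * X ^ a G ≤ N K d G X) ∧
  (∀ ε : ℝ, 0 < ε → ∃ c₂ : ℝ, 0 < c₂ ∧ ∃ X₀ : ℝ, ∀ X : ℝ, X₀ ≤ X →
    (N K d G X : ℝ) < c₂ * X ^ (a G + ε))

/-- `H` is the Galois group of a finite Galois extension of `K`. -/
def Occurs (K H : Type) [Field K] [Group H] : Prop :=
  ∃ F : IntermediateField K (AlgebraicClosure K), FiniteDimensional K F ∧ IsGalois K F ∧
    Nonempty ((F ≃ₐ[K] F) ≃* H)

/-- The action of `H` on `P` is transitive and faithful, and there is a subgroup `U` of `H` containing no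
normal subgroup except `1`, of index `q`, such that `8 q (q + 1) ≤ |P|` and `U` contains the stabilizer of
a point of `P`, or `8 log₂ |H| q (q + 1) ≤ |P|` (`log₂` rounded down). -/
structure Large (H P : Type) [Group H] [MulAction H P] : Prop where
  transitive : ∀ x y : P, ∃ h : H, h • x = y
  faithful : ∀ h : H, (∀ x : P, h • x = x) → h = 1
  large : ∃ U : Subgroup H, U.normalCore = ⊥ ∧
    ((8 * U.index * (U.index + 1) ≤ Nat.card P ∧ ∃ x : P, MulAction.stabilizer H x ≤ U) ∨
      8 * Nat.log 2 (Nat.card H) * U.index * (U.index + 1) ≤ Nat.card P)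

/-- The group `C₂ ≀ H` exists, and is transitive. -/
def Exists (H P : Type) [Group H] [MulAction H P] : Prop :=
  ∃ (d : ℕ) (G : Subgroup (Equiv.Perm (Fin d))),
    d = 2 * Nat.card P ∧ IsC2Wreath H P G ∧ ∀ i j : Fin d, ∃ g ∈ G, g i = j

/-- Malle's conjecture over `K` for all subgroups of symmetric groups of the form `G = C₂ ≀ H`, `H`
acting on `P`. -/
def MalleOver (K : Type) [Field K] [NumberField K] (H P : Type) [Group H] [MulAction H P] : Prop :=
  ∀ (d : ℕ) (G : Subgroup (Equiv.Perm (Fin d))), IsC2Wreath H P G → Malle K d G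

/-- Malle's conjecture over all number fields for all subgroups of symmetric groups of the form
`G = C₂ ≀ H`, `H` acting on `P`, and their existence. -/
def MalleAll (H P : Type) [Group H] [MulAction H P] : Prop :=
  Exists H P ∧ ∀ (K : Type) [Field K] [NumberField K], MalleOver K H P

theorem a_eq {H P : Type} [Group H] [MulAction H P] [Nonempty P] {d : ℕ}
    {G : Subgroup (Equiv.Perm (Fin d))} (hG : IsC2Wreath H P G) : a G = 1 := by
  have h := Pool.Agent.U737.MN.least_ind (H := H) (P := P) hG
  have h2 : sInf {j : ℕ | ∃ g ∈ G, g ≠ 1 ∧ j = ind g} = 1 := h.csInf_eq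
  unfold a
  rw [h2]
  simp

theorem exists_group (H P : Type) [Group H] [MulAction H P] [Finite P]
    (ht : ∀ x y : P, ∃ h : H, h • x = y) : Exists H P := by
  have hcard : Nat.card (P × Bool) = 2 * Nat.card P := by
    rw [Nat.card_prod, mul_comm]
    simp
  let f : Fin (2 * Nat.card P) ≃ P × Bool := (Finite.equivFinOfCardEq hcard).symm
  let G : Subgroup (Equiv.Perm (Fin (2 * Nat.card P))) :=
    { carrier := {π | ∃ h : H, ∀ i, (f (π i)).1 = h • (f i).1}
      one_mem' := ⟨1, fun i => by simp⟩
      mul_mem' := by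
        rintro π ρ ⟨h, hh⟩ ⟨h', hh'⟩
        refine ⟨h * h', fun i => ?_⟩
        rw [Equiv.Perm.mul_apply, hh, hh', mul_smul]
      inv_mem' := by
        rintro π ⟨h, hh⟩
        refine ⟨h⁻¹, fun i => ?_⟩
        have h1 := hh (π⁻¹ i)
        rw [show π (π⁻¹ i) = i from π.apply_symm_apply i] at h1
        rw [h1, inv_smul_smul] }
  refine ⟨2 * Nat.card P, G, rfl, ⟨f, fun π => Iff.rfl⟩, fun i j => ?_⟩
  obtain ⟨h, hh⟩ := ht (f i).1 (f j).1
  let t : Equiv.Perm (P × Bool) := (MulAction.toPerm h).prodCongr (Equiv.swap (f i).2 (f j).2)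
  refine ⟨f.trans (t.trans f.symm), ⟨h, fun x => ?_⟩, ?_⟩
  · simp [t]
  · change f.symm (t (f i)) = j
    rw [Equiv.symm_apply_eq]
    exact Prod.ext (by simp [t, hh]) (by simp [t])

theorem malleOver (K : Type) [Field K] [NumberField K] (H P : Type) [Group H] [Finite H]
    [MulAction H P] [Finite P] [Nonempty P] (hL : Large H P) (hK : Occurs K H) :
    MalleOver K H P := by
  intro d G hG
  have i1 : MulAction.IsPretransitive H P := ⟨hL.transitive⟩
  have i3 : FaithfulSMul H P := ⟨fun {g h} hgh => by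
    have := hL.faithful (h⁻¹ * g) (fun x => by rw [mul_smul, hgh x, inv_smul_smul])
    exact (inv_mul_eq_one.1 this).symm⟩
  obtain ⟨-, c, hc0, hlim⟩ :=
    Pool.Agent.U737.MN.asymp Pool.Agent.U737.MN.inp K H P hL.large hK G hG
  have ha := a_eq hG
  unfold Malle
  rw [ha]
  have hlim' : Tendsto (fun X : ℝ => (N K d G X : ℝ) / X) atTop (nhds c) := hlim
  refine ⟨⟨c, hc0, by simpa using hlim'⟩, ⟨c / 2, by positivity, ?_⟩, ?_⟩
  · have h := (hlim'.eventually (lt_mem_nhds (by linarith : c / 2 < c))).and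
      (eventually_gt_atTop (0 : ℝ))
    obtain ⟨X₀, hX₀⟩ := eventually_atTop.1 h
    refine ⟨X₀, fun X hX => ?_⟩
    obtain ⟨h3, h4⟩ := hX₀ X hX
    rw [lt_div_iff₀ h4] at h3
    rw [Real.rpow_one]
    exact h3.le
  · intro ε hε
    refine ⟨2 * c, by positivity, ?_⟩
    have h := (hlim'.eventually (gt_mem_nhds (by linarith : c < 2 * c))).and
      (eventually_ge_atTop (1 : ℝ))
    obtain ⟨X₀, hX₀⟩ := eventually_atTop.1 h
    refine ⟨X₀, fun X hX => ?_⟩
    obtain ⟨h3, h4⟩ := hX₀ X hX
    have h5 : (0 : ℝ) < X := by linarith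
    rw [div_lt_iff₀ h5] at h3
    refine h3.trans_le ?_
    apply mul_le_mul_of_nonneg_left _ (by positivity)
    calc X = X ^ (1 : ℝ) := (Real.rpow_one X).symm
      _ ≤ X ^ (1 + ε) := Real.rpow_le_rpow_of_exponent_le h4 (by linarith)

theorem all {H P : Type} [Group H] [MulAction H P] [Finite P]
    (ht : ∀ x y : P, ∃ h : H, h • x = y)
    (h : ∀ (K : Type) [Field K] [NumberField K], MalleOver K H P) : MalleAll H P :=
  ⟨exists_group H P ht, h⟩

/-- The general theorem: `C₂ ≀ H` for all finite `H` acting on `P` as in `Large`, over all number fields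
over which `H` is a Galois group. -/
def General : Prop :=
  ∀ (H P : Type) [Group H] [Finite H] [MulAction H P] [Finite P] [Nonempty P],
    Large H P → Exists H P ∧
      ∀ (K : Type) [Field K] [NumberField K], Occurs K H → MalleOver K H P

/-- All transitive faithful actions of the symmetric groups `S_m` of degree at least
`8 log₂ (m!) m (m + 1)`, and those of degree at least `8 m (m + 1)` with an `S_m`-map to `{1, ..., m}`. -/
def Symmetric : Prop :=
  ∀ (m : ℕ) (P : Type) [MulAction (Equiv.Perm (Fin m)) P] [Finite P] [Nonempty P], 1 ≤ m →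
    (∀ x y : P, ∃ h : Equiv.Perm (Fin m), h • x = y) →
    (∀ h : Equiv.Perm (Fin m), (∀ x : P, h • x = x) → h = 1) →
    (8 * m * (m + 1) ≤ Nat.card P ∧
        ∃ f : P → Fin m, ∀ (h : Equiv.Perm (Fin m)) (x : P), f (h • x) = h (f x)) ∨
      8 * Nat.log 2 m.factorial * m * (m + 1) ≤ Nat.card P →
    MalleAll (Equiv.Perm (Fin m)) P

/-- The symmetric groups `S_m` acting on the `k`-tuples of distinct elements of `{1, ..., m}`, and on the
`k`-subsets of `{1, ..., m}`. -/
def Examples : Prop :=
  (∀ m k : ℕ, 12 ≤ m → 3 ≤ k → k ≤ m → MalleAll (Equiv.Perm (Fin m)) (Fin k ↪ Fin m)) ∧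
  ∀ m k : ℕ, 128 ≤ m → 5 ≤ k → k + 5 ≤ m →
    MalleAll (Equiv.Perm (Fin m)) (Set.powersetCard (Fin m) k)

open Pool.Agent.H391R2 (Wr) in
/-- All transitive faithful actions of the wreath products `H = A ≀ S_m` of degree at least
`8 log₂ |H| |A| m (|A| m + 1)`, and those of degree at least `8 |A| m (|A| m + 1)` with an `H`-map to
`A × {1, ..., m}`, where `w = (c, π)` acts on `A × {1, ..., m}` by `(a, i) ↦ (c (π i) a, π i)`. -/
def Wreath : Prop :=
  ∀ (A : Type) [Group A] [Finite A] (m : ℕ), ((3 * Nat.card A + 2).factorial) ^ 3 ≤ m →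
    ∀ (P : Type) [MulAction (Wr A m) P] [Finite P] [Nonempty P],
    (∀ x y : P, ∃ h : Wr A m, h • x = y) →
    (∀ h : Wr A m, (∀ x : P, h • x = x) → h = 1) →
    (8 * (Nat.card A * m) * (Nat.card A * m + 1) ≤ Nat.card P ∧
        ∃ f : P → A × Fin m, ∀ (w : Wr A m) (x : P),
          f (w • x) = (w.left (w.right (f x).2) * (f x).1, w.right (f x).2)) ∨
      8 * Nat.log 2 (Nat.card (Wr A m)) * (Nat.card A * m) * (Nat.card A * m + 1) ≤ Nat.card P →
    MalleAll (Wr A m) P

theorem symmetric : Symmetric := by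
  intro m P _ _ _ hm ht hfa h
  refine all ht fun K _ _ => malleOver K (Equiv.Perm (Fin m)) P ⟨ht, hfa, ?_⟩
    (Pool.Agent.U737.MN.gal_perm K m)
  have : Nonempty (Fin m) := ⟨⟨0, by omega⟩⟩
  have hpt : MulAction.IsPretransitive (Equiv.Perm (Fin m)) (Fin m) :=
    ⟨fun x y => ⟨Equiv.swap x y, Equiv.swap_apply_left x y⟩⟩
  refine Pool.Agent.U737.MN.largeAct_of (Q := Fin m) ?_
  rw [Nat.card_fin, Nat.card_perm, Nat.card_fin]
  rcases h with ⟨h1, h2⟩ | h
  · exact Or.inl ⟨h2, h1⟩
  · exact Or.inr h

theorem examples : Examples := by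
  refine ⟨?_, ?_⟩
  · intro m k hm hk hkm
    have : Nonempty (Fin k ↪ Fin m) := ⟨Fin.castLEEmb hkm⟩
    have hpre : MulAction.IsPretransitive (Equiv.Perm (Fin m)) (Fin k ↪ Fin m) :=
      Equiv.Perm.isMultiplyPretransitive (Fin m) k
    refine symmetric m (Fin k ↪ Fin m) (by omega) hpre.exists_smul_eq ?_
      (Or.inl ⟨Pool.Agent.U737.MN.tuples_card m k hm hk hkm,
        fun x => x ⟨0, by omega⟩, fun h x => rfl⟩)
    intro h hh
    ext i
    let z : Fin k := ⟨0, by omega⟩
    let x₀ : Fin k ↪ Fin m := Fin.castLEEmb hkm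
    have h1 := hh (x₀.trans (Equiv.swap (x₀ z) i).toEmbedding)
    have h2 := DFunLike.congr_fun h1 z
    have h3 : h (Equiv.swap (x₀ z) i (x₀ z)) = Equiv.swap (x₀ z) i (x₀ z) := h2
    rw [Equiv.swap_apply_left] at h3
    rw [h3]
    rfl
  · intro m k hm hk hkm
    have hpre : MulAction.IsPretransitive (Equiv.Perm (Fin m)) (Set.powersetCard (Fin m) k) :=
      Set.powersetCard.isPretransitive
    have hcard : Nat.card (Set.powersetCard (Fin m) k) = m.choose k := by
      rw [Set.powersetCard.card, Nat.card_fin]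
    have hpos : 0 < Nat.card (Set.powersetCard (Fin m) k) := by
      rw [hcard]
      exact Nat.choose_pos (by omega)
    have : Nonempty (Set.powersetCard (Fin m) k) := (Nat.card_pos_iff.1 hpos).1
    have hfa : FaithfulSMul (Equiv.Perm (Fin m)) (Set.powersetCard (Fin m) k) :=
      Set.powersetCard.faithfulSMul (by omega) (by
        rw [ENat.card_eq_coe_fintype_card, Fintype.card_fin]
        exact_mod_cast (by omega : k < m))
    refine symmetric m (Set.powersetCard (Fin m) k) (by omega) hpre.exists_smul_eq ?_ (Or.inr ?_)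
    · intro h hh
      exact hfa.eq_of_smul_eq_smul fun x => by rw [hh x, one_smul]
    · rw [hcard]
      exact Pool.Agent.U737.MN.subsets_card m k hm hk hkm

theorem wreath : Wreath := by
  intro A _ _ m hm P _ _ _ ht hfa h
  letI := Pool.Agent.TH444.ML.wrAct A m
  refine all ht fun K _ _ => malleOver K _ P ⟨ht, hfa, ?_⟩ (Pool.Agent.U737.MN.gal_wr K A m hm)
  have hm1 : 1 ≤ m := le_trans (Nat.one_le_pow _ _ (Nat.factorial_pos _)) hm
  have : Nonempty (Fin m) := ⟨⟨0, by omega⟩⟩
  have i1 : MulAction.IsPretransitive (Pool.Agent.H391R2.Wr A m) (A × Fin m) :=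
    ⟨Pool.Agent.U737.MN.wr_trans A m⟩
  have i2 : FaithfulSMul (Pool.Agent.H391R2.Wr A m) (A × Fin m) := ⟨fun {g h} hgh => by
    have := Pool.Agent.U737.MN.wr_faithful A m (h⁻¹ * g)
      (fun x => by rw [mul_smul, hgh x, inv_smul_smul])
    exact (inv_mul_eq_one.1 this).symm⟩
  refine Pool.Agent.U737.MN.largeAct_of (Q := A × Fin m) ?_
  rw [Nat.card_prod, Nat.card_fin]
  rcases h with ⟨h1, h2⟩ | h
  · exact Or.inl ⟨h2, h1⟩
  · exact Or.inr h

theorem result : General ∧ Symmetric ∧ Examples ∧ Wreath :=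
  ⟨fun H P _ _ _ _ _ hL => ⟨exists_group H P hL.transitive, fun K _ _ hK => malleOver K H P hL hK⟩,
    symmetric, examples, wreath⟩

end Pool.Agent.Results.MP_af4c59_nt.LargeActions
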