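import Mathlib
import Pool.Agent.U737.MN.LowAll

/-!
# The weak form of Malle's conjecture for the iterated wreath products `C_ℓ ≀ ... ≀ C_ℓ' ≀ H`

`H` is a finite group acting transitively and faithfully on a finite set `P`, and `C_ℓ ≀ H` acts on
`P × ℤ/ℓ` (`ℓ` prime); this is iterated: `G = C_{ℓ₁} ≀ (C_{ℓ₂} ≀ ( ... ≀ (C_{ℓ_k} ≀ H)))`, `k ≥ 1`. Here
`a(G) = 1 / (ℓ₁ - 1)`. Let `K` be a number field which contains the `ℓ_i`-th roots of unity and over which
`H` is a Galois group.

* The lower bound in the weak form of Malle's conjecture holds for `G` over `K`.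
* Let `q` be the index of a core-free subgroup `U` of `H`. If `|P| ≥ 8 log₂ |H| q (q + 1)`, or if
  `|P| ≥ 8 q (q + 1)` and `U` contains the stabilizer of a point of `P`, and if the primes `ℓ_i` are odd
  (`ℓ₁` may be `2` if `k ≥ 2`), then both bounds hold.

For the symmetric groups `H = S_m` and the groups `H = A ≀ S_m` (`A` any finite group, `m` large) the
hypothesis on the Galois group is not needed.

The proof. The extensions of `K` with group `C_ℓ ≀ H` are the extensions `L = M(α ^ (1/ℓ))` of the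
extensions `M` of `K` with group `H` acting on `P` for which the conjugates of `α` are independent modulo
`ℓ`-th powers. Lower bound: for one fixed `M` and a prime `p` of `K` which splits totally in the normal
closure of `M`, take `α` divisible by exactly one prime above `p`, and only once; then the conjugates of `α`
are independent, and there are enough such `α` with squarefree norm up to a fixed factor. Upper bound: the
number of `L` for given `M` is bounded by the class number of `M` and the number of tuples of ideals of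
bounded norm, uniformly in `M`, and there are few `M`, by the proof of `LargeActions` or by induction.

Project MN: helper737 with parts by helpers 128, 261, 278, 446, 458, 594, 765, 789, 858, 869, 876, 928, and,
for the sum over `M`, 55, 178, 358, 404, 608, 630, 810, 875, 891, 894, 980.
-/

set_option autoImplicit false

open Filter

namespace Pool.Agent.Results.MP_af4c59_nt.PrimeWreaths

/-- `G ≤ S_n` is, up to a bijection `f` of `{1, ..., n}` with `P × ℤ/ℓ`, the wreath product `C_ℓ ≀ H`: it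
consists of all permutations `(x, t) ↦ (h x, c(x) + t)` with `h ∈ H` and `c : P → ℤ/ℓ`. -/
def IsWreath (ℓ : ℕ) (H P : Type) [Group H] [MulAction H P] {n : ℕ}
    (G : Subgroup (Equiv.Perm (Fin n))) : Prop :=
  ∃ f : Fin n ≃ P × ZMod ℓ, ∀ π : Equiv.Perm (Fin n), π ∈ G ↔ ∃ (h : H) (c : P → ZMod ℓ), ∀ i,
    f (π i) = (h • (f i).1, c (f i).1 + (f i).2)

/-- `Tower H P [ℓ₁, ..., ℓ_k] n G`: `G ≤ S_n` is `C_{ℓ₁} ≀ (C_{ℓ₂} ≀ ( ... ≀ (C_{ℓ_k} ≀ H)))`, where `H`
acts on `P`, and each group in the sequence acts on a set `{1, ..., m}`. -/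
inductive Tower (H P : Type) [Group H] [MulAction H P] :
    List ℕ → (n : ℕ) → Subgroup (Equiv.Perm (Fin n)) → Prop
  | one (ℓ n : ℕ) (G : Subgroup (Equiv.Perm (Fin n))) : IsWreath ℓ H P G → Tower H P [ℓ] n G
  | step (ℓ : ℕ) (ls : List ℕ) (m n : ℕ) (G : Subgroup (Equiv.Perm (Fin m)))
      (G' : Subgroup (Equiv.Perm (Fin n))) : Tower H P ls m G → IsWreath ℓ G (Fin m) G' →
      Tower H P (ℓ :: ls) n G'

/-- The index of a permutation: `n` minus the number of its cycles, fixed points included. -/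
def ind {n : ℕ} (g : Equiv.Perm (Fin n)) : ℕ := g.cycleType.sum - Multiset.card g.cycleType

/-- `a(G) = 1 / min ind(g)`, the minimum over the `g ≠ 1` in `G`. -/
noncomputable def a {n : ℕ} (G : Subgroup (Equiv.Perm (Fin n))) : ℝ :=
  1 / (sInf {j : ℕ | ∃ g ∈ G, g ≠ 1 ∧ j = ind g} : ℕ)

/-- `N_{n,K}(X; G)`: the number of fields `L` between `K` and its algebraic closure, of degree `n`
over `K`, whose Galois group, acting on the embeddings, is `G` (up to numbering), and whose relative
discriminant has norm at most `X` (that is, `|d_L| ≤ X |d_K| ^ n`). -/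
noncomputable def N (K : Type) [Field K] [NumberField K] (n : ℕ)
    (G : Subgroup (Equiv.Perm (Fin n))) (X : ℝ) : ℕ :=
  Set.ncard {L : IntermediateField K (AlgebraicClosure K) |
    Module.finrank K L = n ∧
    (∃ e : (L →ₐ[K] AlgebraicClosure K) ≃ Fin n, ∀ π : Equiv.Perm (Fin n),
      π ∈ G ↔ ∃ σ : AlgebraicClosure K ≃ₐ[K] AlgebraicClosure K,
        ∀ φ : L →ₐ[K] AlgebraicClosure K, e (σ.toAlgHom.comp φ) = π (e φ)) ∧
    ∃ h : NumberField L,
      ((|@NumberField.discr L _ h| : ℤ) : ℝ) ≤ X * ((|NumberField.discr K| : ℤ) : ℝ) ^ n}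

/-- The lower bound in the weak form of Malle's conjecture for `(K, G)`. -/
def Lower (K : Type) [Field K] [NumberField K] (n : ℕ) (G : Subgroup (Equiv.Perm (Fin n))) :
    Prop :=
  ∃ c₁ : ℝ, 0 < c₁ ∧ ∃ X₀ : ℝ, ∀ X : ℝ, X₀ ≤ X → c₁ * X ^ a G ≤ N K n G X

/-- The upper bound in the weak form of Malle's conjecture for `(K, G)`. -/
def Upper (K : Type) [Field K] [NumberField K] (n : ℕ) (G : Subgroup (Equiv.Perm (Fin n))) :
    Prop :=
  ∀ ε : ℝ, 0 < ε → ∃ c₂ : ℝ, 0 < c₂ ∧ ∃ X₀ : ℝ, ∀ X : ℝ, X₀ ≤ X →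
    (N K n G X : ℝ) < c₂ * X ^ (a G + ε)

/-- `H` is the Galois group of a finite Galois extension of `K`. -/
def Occurs (K H : Type) [Field K] [Group H] : Prop :=
  ∃ F : IntermediateField K (AlgebraicClosure K), FiniteDimensional K F ∧ IsGalois K F ∧
    Nonempty ((F ≃ₐ[K] F) ≃* H)

/-- The action of `H` on `P` is transitive and faithful. -/
structure Action (H P : Type) [Group H] [MulAction H P] : Prop where
  transitive : ∀ x y : P, ∃ h : H, h • x = y
  faithful : ∀ h : H, (∀ x : P, h • x = x) → h = 1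

/-- There is a subgroup `U` of `H` containing no normal subgroup except `1`, of index `q`, such that
`8 q (q + 1) ≤ |P|` and `U` contains the stabilizer of a point of `P`, or `8 log₂ |H| q (q + 1) ≤ |P|`
(`log₂` rounded down). -/
def Large (H P : Type) [Group H] [MulAction H P] : Prop :=
  ∃ U : Subgroup H, U.normalCore = ⊥ ∧
    ((8 * U.index * (U.index + 1) ≤ Nat.card P ∧ ∃ x : P, MulAction.stabilizer H x ≤ U) ∨
      8 * Nat.log 2 (Nat.card H) * U.index * (U.index + 1) ≤ Nat.card P)

/-- `ls` is a nonempty list of primes, and `K` contains the `ℓ`-th roots of unity for all `ℓ` in `ls`. -/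
def Roots (K : Type) [Field K] (ls : List ℕ) : Prop :=
  ls ≠ [] ∧ ∀ ℓ ∈ ls, ℓ.Prime ∧ ∃ ζ : K, IsPrimitiveRoot ζ ℓ

/-- The lower bound over `K`, for all iterated wreath products of cyclic groups of prime orders `ℓ` with `H`
on `P` such that `K` contains the `ℓ`-th roots of unity. -/
def LowerOver (K : Type) [Field K] [NumberField K] (H P : Type) [Group H] [MulAction H P] : Prop :=
  ∀ ls : List ℕ, Roots K ls → ∀ (n : ℕ) (G : Subgroup (Equiv.Perm (Fin n))),
    Tower H P ls n G → Lower K n G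

/-- The upper bound over `K`, for the same groups, if all the primes are odd, or all except the first of at
least two. -/
def UpperOver (K : Type) [Field K] [NumberField K] (H P : Type) [Group H] [MulAction H P] : Prop :=
  ∀ ls : List ℕ, Roots K ls → ls ≠ [2] → (∀ ℓ ∈ ls.tail, ℓ ≠ 2) →
    ∀ (n : ℕ) (G : Subgroup (Equiv.Perm (Fin n))), Tower H P ls n G → Upper K n G

/-- The groups exist, for all nonempty lists of positive integers, and are transitive. -/
def Exists (H P : Type) [Group H] [MulAction H P] : Prop :=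
  ∀ ls : List ℕ, ls ≠ [] → (∀ ℓ ∈ ls, 0 < ℓ) →
    ∃ (n : ℕ) (G : Subgroup (Equiv.Perm (Fin n))), n = ls.prod * Nat.card P ∧
      Tower H P ls n G ∧ ∀ i j : Fin n, ∃ g ∈ G, g i = j

/-- The general theorem, for all number fields over which `H` is a Galois group. -/
def General : Prop :=
  ∀ (H P : Type) [Group H] [Finite H] [MulAction H P] [Finite P] [Nonempty P], Action H P →
    Exists H P ∧
    ∀ (K : Type) [Field K] [NumberField K], Occurs K H →
      LowerOver K H P ∧ (Large H P → UpperOver K H P)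

/-- The symmetric groups: the lower bound in all transitive faithful actions of `S_m`; the upper bound in
those of degree at least `8 log₂ (m!) m (m + 1)` and those of degree at least `8 m (m + 1)` with an
`S_m`-map to `{1, ..., m}`. -/
def Symmetric : Prop :=
  ∀ (m : ℕ) (P : Type) [MulAction (Equiv.Perm (Fin m)) P] [Finite P] [Nonempty P], 1 ≤ m →
    Action (Equiv.Perm (Fin m)) P → ∀ (K : Type) [Field K] [NumberField K],
    LowerOver K (Equiv.Perm (Fin m)) P ∧
    ((8 * m * (m + 1) ≤ Nat.card P ∧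
        ∃ f : P → Fin m, ∀ (h : Equiv.Perm (Fin m)) (x : P), f (h • x) = h (f x)) ∨
      8 * Nat.log 2 m.factorial * m * (m + 1) ≤ Nat.card P →
    UpperOver K (Equiv.Perm (Fin m)) P)

/-- Both bounds for the symmetric groups `S_m` acting on the `k`-tuples of distinct elements of
`{1, ..., m}`, and on the `k`-subsets of `{1, ..., m}`. -/
def Examples : Prop :=
  (∀ m k : ℕ, 12 ≤ m → 3 ≤ k → k ≤ m → ∀ (K : Type) [Field K] [NumberField K],
    LowerOver K (Equiv.Perm (Fin m)) (Fin k ↪ Fin m) ∧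
      UpperOver K (Equiv.Perm (Fin m)) (Fin k ↪ Fin m)) ∧
  ∀ m k : ℕ, 128 ≤ m → 5 ≤ k → k + 5 ≤ m → ∀ (K : Type) [Field K] [NumberField K],
    LowerOver K (Equiv.Perm (Fin m)) (Set.powersetCard (Fin m) k) ∧
      UpperOver K (Equiv.Perm (Fin m)) (Set.powersetCard (Fin m) k)

open Pool.Agent.H391R2 (Wr) in
/-- The wreath products `H = A ≀ S_m`: the lower bound in all transitive faithful actions; the upper bound
in those of degree at least `8 log₂ |H| |A| m (|A| m + 1)` and those of degree at least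
`8 |A| m (|A| m + 1)` with an `H`-map to `A × {1, ..., m}`, where `w = (c, π)` acts on `A × {1, ..., m}` by
`(a, i) ↦ (c (π i) a, π i)`. -/
def Wreath : Prop :=
  ∀ (A : Type) [Group A] [Finite A] (m : ℕ), ((3 * Nat.card A + 2).factorial) ^ 3 ≤ m →
    ∀ (P : Type) [MulAction (Wr A m) P] [Finite P] [Nonempty P], Action (Wr A m) P →
    ∀ (K : Type) [Field K] [NumberField K], LowerOver K (Wr A m) P ∧
    ((8 * (Nat.card A * m) * (Nat.card A * m + 1) ≤ Nat.card P ∧
        ∃ f : P → A × Fin m, ∀ (w : Wr A m) (x : P),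
          f (w • x) = (w.left (w.right (f x).2) * (f x).1, w.right (f x).2)) ∨
      8 * Nat.log 2 (Nat.card (Wr A m)) * (Nat.card A * m) * (Nat.card A * m + 1) ≤ Nat.card P →
    UpperOver K (Wr A m) P)

theorem tower_conv {H P : Type} [Group H] [MulAction H P] {ls : List ℕ} {n : ℕ}
    {G : Subgroup (Equiv.Perm (Fin n))} :
    Tower H P ls n G ↔ Pool.Agent.U737.MN.Tower H P ls n G := by
  constructor
  · intro h
    induction h with
    | one ℓ n G hG => exact Pool.Agent.U737.MN.Tower.one ℓ n G hG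
    | step ℓ ls m n G G' _ hG' ih => exact Pool.Agent.U737.MN.Tower.step ℓ ls m n G G' ih hG'
  · intro h
    induction h with
    | one ℓ n G hG => exact Tower.one ℓ n G hG
    | step ℓ ls m n G G' _ hG' ih => exact Tower.step ℓ ls m n G G' ih hG'

theorem a_eq {n ℓ : ℕ} (hl : ℓ.Prime) {G : Subgroup (Equiv.Perm (Fin n))}
    (h : IsLeast {j : ℕ | ∃ g ∈ G, g ≠ 1 ∧ j = g.cycleType.sum - Multiset.card g.cycleType}
      (ℓ - 1)) : a G = 1 / ((ℓ : ℝ) - 1) := by
  have h2 : sInf {j : ℕ | ∃ g ∈ G, g ≠ 1 ∧ j = ind g} = ℓ - 1 := h.csInf_eq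
  unfold a
  rw [h2, Nat.cast_sub hl.one_le, Nat.cast_one]

section

variable {H P : Type} [Group H] [MulAction H P]

theorem faithful_inst (hA : Action H P) : FaithfulSMul H P := ⟨fun {g h} hgh => by
  have := hA.faithful (h⁻¹ * g) (fun x => by rw [mul_smul, hgh x, inv_smul_smul])
  exact (inv_mul_eq_one.1 this).symm⟩

theorem exists_tower [Finite P] [Nonempty P] (hA : Action H P) : Exists H P := by
  have i1 : MulAction.IsPretransitive H P := ⟨hA.transitive⟩
  intro ls hls h0
  obtain ⟨ℓ, ls', rfl⟩ := List.exists_cons_of_ne_nil hls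
  obtain ⟨n, G, hn, hT, htr⟩ := Pool.Agent.U737.MN.tower_exists H P ℓ ls' h0
  refine ⟨n, G, hn, tower_conv.2 hT, fun i j => ?_⟩
  obtain ⟨g, hg⟩ := htr.exists_smul_eq i j
  exact ⟨g.1, g.2, hg⟩

theorem lowerOver [Finite H] [Finite P] [Nonempty P] (hA : Action H P) (K : Type) [Field K]
    [NumberField K] (hK : Occurs K H) : LowerOver K H P := by
  intro ls hls n G hG
  have i1 : MulAction.IsPretransitive H P := ⟨hA.transitive⟩
  have i3 : FaithfulSMul H P := faithful_inst hA
  obtain ⟨ℓ, ls', rfl⟩ := List.exists_cons_of_ne_nil hls.1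
  have hGal := Pool.Agent.U737.MN.inp.exist K (AlgebraicClosure K) H P hK
  obtain ⟨h1, h2⟩ := Pool.Agent.U737.MN.tower_low K H P hGal ℓ ls' n G (tower_conv.1 hG) hls.2
  unfold Lower
  rw [a_eq (hls.2 ℓ (by simp)).1 h1]
  exact h2

theorem upperOver [Finite H] [Finite P] [Nonempty P] (hA : Action H P) (hL : Large H P)
    (K : Type) [Field K] [NumberField K] (hK : Occurs K H) : UpperOver K H P := by
  intro ls hls _ hodd n G hG
  have i1 : MulAction.IsPretransitive H P := ⟨hA.transitive⟩
  have i3 : FaithfulSMul H P := faithful_inst hA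
  obtain ⟨ℓ, ls', rfl⟩ := List.exists_cons_of_ne_nil hls.1
  have hgood := Pool.Agent.U737.MN.good_of_large Pool.Agent.U737.MN.inp K H P hL hK
  obtain ⟨h1, -, h3⟩ := Pool.Agent.U737.MN.tower_weak K H P hgood ℓ ls' n G (tower_conv.1 hG)
    hls.2 (by
      intro l hl
      have h4 : l ≠ 2 := hodd l hl
      have h5 := (hls.2 l (by simp [hl])).1.two_le
      omega)
  intro ε hε
  obtain ⟨c, hc0, hc⟩ := h3 ε hε
  rw [a_eq (hls.2 ℓ (by simp)).1 h1]
  exact ⟨c, hc0, 1, fun X hX => (hc X (by linarith)).2⟩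

end

theorem symmetric : Symmetric := by
  intro m P _ _ _ hm hA K _ _
  refine ⟨lowerOver hA K (Pool.Agent.U737.MN.gal_perm K m), fun h =>
    upperOver hA ?_ K (Pool.Agent.U737.MN.gal_perm K m)⟩
  have : Nonempty (Fin m) := ⟨⟨0, by omega⟩⟩
  have hpt : MulAction.IsPretransitive (Equiv.Perm (Fin m)) (Fin m) :=
    ⟨fun x y => ⟨Equiv.swap x y, Equiv.swap_apply_left x y⟩⟩
  refine Pool.Agent.U737.MN.largeAct_of (Q := Fin m) ?_
  rw [Nat.card_fin, Nat.card_perm, Nat.card_fin]
  rcases h with ⟨h1, h2⟩ | h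
  · exact Or.inl ⟨h2, h1⟩
  · exact Or.inr h

theorem examples : Examples := by
  refine ⟨?_, ?_⟩
  · intro m k hm hk hkm K _ _
    have : Nonempty (Fin k ↪ Fin m) := ⟨Fin.castLEEmb hkm⟩
    have hpre : MulAction.IsPretransitive (Equiv.Perm (Fin m)) (Fin k ↪ Fin m) :=
      Equiv.Perm.isMultiplyPretransitive (Fin m) k
    have hA : Action (Equiv.Perm (Fin m)) (Fin k ↪ Fin m) := by
      refine ⟨hpre.exists_smul_eq, ?_⟩
      intro h hh
      ext i
      let z : Fin k := ⟨0, by omega⟩
      let x₀ : Fin k ↪ Fin m := Fin.castLEEmb hkm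
      have h1 := hh (x₀.trans (Equiv.swap (x₀ z) i).toEmbedding)
      have h2 := DFunLike.congr_fun h1 z
      have h3 : h (Equiv.swap (x₀ z) i (x₀ z)) = Equiv.swap (x₀ z) i (x₀ z) := h2
      rw [Equiv.swap_apply_left] at h3
      rw [h3]
      rfl
    obtain ⟨h1, h2⟩ := symmetric m (Fin k ↪ Fin m) (by omega) hA K
    exact ⟨h1, h2 (Or.inl ⟨Pool.Agent.U737.MN.tuples_card m k hm hk hkm,
      fun x => x ⟨0, by omega⟩, fun h x => rfl⟩)⟩
  · intro m k hm hk hkm K _ _
    have hpre : MulAction.IsPretransitive (Equiv.Perm (Fin m)) (Set.powersetCard (Fin m) k) :=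
      Set.powersetCard.isPretransitive
    have hcard : Nat.card (Set.powersetCard (Fin m) k) = m.choose k := by
      rw [Set.powersetCard.card, Nat.card_fin]
    have hpos : 0 < Nat.card (Set.powersetCard (Fin m) k) := by
      rw [hcard]
      exact Nat.choose_pos (by omega)
    have : Nonempty (Set.powersetCard (Fin m) k) := (Nat.card_pos_iff.1 hpos).1
    have hfa : FaithfulSMul (Equiv.Perm (Fin m)) (Set.powersetCard (Fin m) k) :=
      Set.powersetCard.faithfulSMul (by omega) (by
        rw [ENat.card_eq_coe_fintype_card, Fintype.card_fin]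
        exact_mod_cast (by omega : k < m))
    obtain ⟨h1, h2⟩ := symmetric m (Set.powersetCard (Fin m) k) (by omega)
      ⟨hpre.exists_smul_eq, fun h hh =>
        hfa.eq_of_smul_eq_smul fun x => by rw [hh x, one_smul]⟩ K
    refine ⟨h1, h2 (Or.inr ?_)⟩
    rw [hcard]
    exact Pool.Agent.U737.MN.subsets_card m k hm hk hkm

theorem wreath : Wreath := by
  intro A _ _ m hm P _ _ _ hA K _ _
  letI := Pool.Agent.TH444.ML.wrAct A m
  have hK := Pool.Agent.U737.MN.gal_wr K A m hm
  refine ⟨lowerOver hA K hK, fun h => upperOver hA ?_ K hK⟩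
  have hm1 : 1 ≤ m := le_trans (Nat.one_le_pow _ _ (Nat.factorial_pos _)) hm
  have : Nonempty (Fin m) := ⟨⟨0, by omega⟩⟩
  have i1 : MulAction.IsPretransitive (Pool.Agent.H391R2.Wr A m) (A × Fin m) :=
    ⟨Pool.Agent.U737.MN.wr_trans A m⟩
  have i2 : FaithfulSMul (Pool.Agent.H391R2.Wr A m) (A × Fin m) := ⟨fun {g h} hgh => by
    have := Pool.Agent.U737.MN.wr_faithful A m (h⁻¹ * g)
      (fun x => by rw [mul_smul, hgh x, inv_smul_smul])
    exact (inv_mul_eq_one.1 this).symm⟩
  refine Pool.Agent.U737.MN.largeAct_of (Q := A × Fin m) ?_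
  rw [Nat.card_prod, Nat.card_fin]
  rcases h with ⟨h1, h2⟩ | h
  · exact Or.inl ⟨h2, h1⟩
  · exact Or.inr h

theorem result : General ∧ Symmetric ∧ Examples ∧ Wreath :=
  ⟨fun H P _ _ _ _ _ hA => ⟨exists_tower hA, fun K _ _ hK =>
    ⟨lowerOver hA K hK, fun hL => upperOver hA hL K hK⟩⟩, symmetric, examples, wreath⟩

end Pool.Agent.Results.MP_af4c59_nt.PrimeWreaths
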