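import Pool.Agent.U376.RL.Fin

/-!
# Extensions with Galois group `S_n`, `n` odd, with prescribed local behaviour

Let `K` be any number field and `n ≥ 3` an odd integer. Prescribe

* at finitely many primes a residue class: a positive integer `N` and a monic polynomial `p` over `𝓞 K` of
  degree `n` without term of degree `n - 1`, which is irreducible modulo the primes over `2` dividing `N`
  and whose discriminant is, for the primes `𝔭` dividing `N` which are not over `2`, not divisible by `𝔭`, or
  not by `𝔭 ^ 2` if `𝔭 ^ 2` divides `N`;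
* at every real embedding `σ` of `K` an odd number `r σ ≤ n` (`n` is odd, so these are all numbers of real
  embeddings over `σ` which are possible).

Then the number of the extensions `L` of degree `n` of `K` with Galois group `S_n`, with exactly `r σ` real
embeddings over `σ` for each `σ`, with `𝓞 L = 𝓞 K [t]` for some `t` whose minimal polynomial is congruent
to `p` modulo `N` and has a squarefree discriminant, and with absolute discriminant at most `X`, is
at least `c X ^ (1 / 2 + 1 / n)` for large `X`, with `c > 0`.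

So the lower bound of `MP_af4c59_nt/SymmetricGroupOddDegree` (no local conditions) holds with every signature
and with local conditions. For example, if `p` is separable modulo an odd prime `𝔭` with `N ∈ 𝔭`, the
residue degrees of `L` over `𝔭` are the degrees of the irreducible factors of `p` modulo `𝔭`.

The proof. Project PF (2-Selmer groups of hyperelliptic Jacobians over number fields) is redone for
polynomials in a residue class whose coefficients are near to the multiples `t ^ (n - j) a_j` of a fixed
shape `(a_j)` at the infinite places: this is an open subset of the box of polynomials of bounded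
height, so it contains a positive proportion. The shape at the real embedding `σ` is
`x (x ^ 2 - 1) ... (x ^ 2 - s ^ 2) (x ^ 2 + 1) ... (x ^ 2 + m ^ 2)` with `r σ = 2 s + 1`; polynomials near
to it have as many real zeros, since the zeros are simple. The rest is the method of project CF.

Uses the libraries PF and CF (helper783 and coauthors).
-/

set_option autoImplicit false
set_option linter.all false

namespace Pool.Agent.Results.MP_af4c59_nt.SymmetricGroupLocalConditions

open NumberField Polynomial

/-- The extensions of degree `n` of `K` inside the algebraic closure of `K` whose absolute discriminant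
has absolute value at most `X` and for which the Galois group of `K` acts on the set of embeddings in the
algebraic closure as the full symmetric group. -/
def SymmetricFields (K : Type) [Field K] [NumberField K] (n : ℕ) (X : ℝ) :
    Set (IntermediateField K (AlgebraicClosure K)) :=
  {L | Module.finrank K L = n ∧
    (∃ h : NumberField L, ((|@NumberField.discr L _ h| : ℤ) : ℝ) ≤ X) ∧
    ∀ τ : Equiv.Perm (L →ₐ[K] AlgebraicClosure K),
      ∃ σ : AlgebraicClosure K ≃ₐ[K] AlgebraicClosure K,
        ∀ φ : L →ₐ[K] AlgebraicClosure K, τ φ = σ.toAlgHom.comp φ}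

/-- The condition on the residue class of `p` modulo `N` at the primes which contain `N`. -/
def Admissible (K : Type) [Field K] [NumberField K] (N : ℕ) (p : (𝓞 K)[X]) : Prop :=
  ∀ 𝔭 : Ideal (𝓞 K), 𝔭.IsPrime → 𝔭 ≠ ⊥ → (N : 𝓞 K) ∈ 𝔭 →
    ((2 : 𝓞 K) ∈ 𝔭 → Irreducible (p.map (Ideal.Quotient.mk 𝔭))) ∧
    ((2 : 𝓞 K) ∉ 𝔭 → p.discr ∉ 𝔭 ∨ ((N : 𝓞 K) ∈ 𝔭 ^ 2 ∧ p.discr ∉ 𝔭 ^ 2))

/-- The fields among them with exactly `r σ` real embeddings over every real embedding `σ` of `K` whose
ring of integers is generated over that of `K` by one element `t` whose minimal polynomial is congruent to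
`p` modulo `N` and has a discriminant which is not divisible by the square of a prime. -/
def LocalFields (K : Type) [Field K] [NumberField K] (n : ℕ) (X : ℝ) (N : ℕ) (p : (𝓞 K)[X])
    (r : (K →+* ℝ) → ℕ) : Set (IntermediateField K (AlgebraicClosure K)) :=
  {L | L ∈ SymmetricFields K n X ∧
    (∀ σ : K →+* ℝ, Nat.card {φ : L →+* ℝ // φ.comp (algebraMap K L) = σ} = r σ) ∧
    ∃ t : 𝓞 L, Algebra.adjoin (𝓞 K) {t} = ⊤ ∧
      (∀ j, (N : 𝓞 K) ∣ (minpoly (𝓞 K) t).coeff j - p.coeff j) ∧
      ∀ 𝔭 : Ideal (𝓞 K), 𝔭.IsPrime → 𝔭 ≠ ⊥ → (minpoly (𝓞 K) t).discr ∉ 𝔭 ^ 2}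

/-- For every number field `K`, every odd `n ≥ 3`, every admissible residue class of polynomials of degree
`n` without term of degree `n - 1` and all odd numbers `r σ ≤ n` the number of the extensions of degree `n`
of `K` with Galois group `S_n`, absolute discriminant at most `X`, `r σ` real embeddings over each real
embedding `σ` of `K`, and a generator of the ring of integers over that of `K` in this residue class whose
minimal polynomial has a squarefree discriminant, is at least `c X ^ (1 / 2 + 1 / n)`. -/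
theorem result : ∀ (K : Type) [Field K] [NumberField K] (n : ℕ), 3 ≤ n → Odd n →
    ∀ N : ℕ, 0 < N → ∀ p : (𝓞 K)[X], p.Monic → p.natDegree = n → p.coeff (n - 1) = 0 →
    Admissible K N p → ∀ r : (K →+* ℝ) → ℕ, (∀ σ, Odd (r σ) ∧ r σ ≤ n) →
    ∃ c : ℝ, 0 < c ∧ ∃ X₀ : ℝ, ∀ X : ℝ, X₀ ≤ X → (SymmetricFields K n X).Finite ∧
      c * X ^ ((1 : ℝ) / 2 + 1 / (n : ℝ)) ≤ ((LocalFields K n X N p r).ncard : ℝ) ∧
      (LocalFields K n X N p r).ncard ≤ (SymmetricFields K n X).ncard := by
  intro K _ _ n hn3 hodd N hN p hm hd ht hadm r hr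
  obtain ⟨g, rfl⟩ := hodd
  rw [Nat.add_sub_cancel] at ht
  obtain ⟨c, hc, X₀, h⟩ := Pool.Agent.U376.RL.cntR K g (by omega) N hN p hm hd ht
    (fun 𝔭 h1 h2 h3 h4 => (hadm 𝔭 h1 h2 h3).1 h4)
    (fun 𝔭 h1 h2 h3 h4 => (hadm 𝔭 h1 h2 h3).2 h4) r (fun σ => (hr σ).1) (fun σ => (hr σ).2)
  refine ⟨c, hc, X₀, fun X hX => ?_⟩
  obtain ⟨hfin, hle⟩ := h X hX
  have hfin' : (SymmetricFields K (2 * g + 1) X).Finite :=
    hfin.subset fun L hL => ⟨hL.1, hL.2.1⟩
  have hsub1 : LocalFields K (2 * g + 1) X N p r ⊆ SymmetricFields K (2 * g + 1) X :=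
    fun L hL => hL.1
  have hsub : Pool.Agent.U376.RF.FldsE g (fun f : (𝓞 K)[X] =>
      (∀ j, (N : 𝓞 K) ∣ f.coeff j - p.coeff j) ∧
        ∀ σ : K →+* ℝ, Pool.Agent.U376.RL.nR f σ = r σ) X ⊆ LocalFields K (2 * g + 1) X N p r := by
    rintro L ⟨hL, hN, f, θ, hG, hi, hs, ht, hu, hcg, hre⟩
    obtain ⟨t, htt⟩ : ∃ t : 𝓞 L, algebraMap (𝓞 L) L t = θ :=
      ⟨⟨θ, Pool.Agent.N783.CF.isIntegral_gen hG⟩, rfl⟩
    refine ⟨⟨hL.1, hL.2, Pool.Agent.N783.CF.full g K L f θ (by omega) hG hi hs ht hu⟩,
      fun σ => (Pool.Agent.U376.RL.card_emb hG hi σ).trans (hre σ), t,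
      Pool.Agent.U376.RL.adj_int hG hs t htt, ?_, ?_⟩
    · rw [Pool.Agent.U376.RL.minpoly_int hG hi t htt]
      exact hcg
    · intro 𝔭 h1 h2
      rw [Pool.Agent.U376.RL.minpoly_int hG hi t htt,
        ← Pool.Agent.U376.RL.dsc_discr (by omega : 1 ≤ g) hG.mon hG.deg]
      exact hs 𝔭 h1 h2
  refine ⟨hfin', hle.trans ?_, Set.ncard_le_ncard hsub1 hfin'⟩
  exact_mod_cast Set.ncard_le_ncard hsub (hfin'.subset hsub1)

end Pool.Agent.Results.MP_af4c59_nt.SymmetricGroupLocalConditions
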